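import Mathlib
import Pool.Agent.H902.CB.NegC

set_option autoImplicit false

/-!
# Negative curves of a given degree on the fibres: finitely many classes for all numbers of points

Let `F = H - E 1` be the class of the lines through the first point, and `D = d H - ∑ m i E i` a class
with `D ^ 2 < 0` and `K D ≥ 0` (the classes which Q1 excludes), `b = D F = d - m 1`, and `m i ≤ b` for
the other `i` (this holds for all irreducible curves of degree at least two).

* (1) If `-3 χ (D) ≥ b (b + 1) ^ 2 (b + 2)` or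
  `3 ∑_{i > 1} m i (b - m i) ≥ 2 b (b (b + 1) ^ 2 (b + 2) + 3 (b + 1))`, then there are no curves with
  this class, or with an image of it under quadratic transformations, at general points.
* (2) If for some `n` and `D` as above there are curves of class `D` at general points, then there is
  such a class `D'` with the same `b`, `D' ^ 2 = D ^ 2`, `K D' = K D`, at most
  `N b = b (b (b + 1) ^ 2 (b + 2) + 3 (b + 1))` other points, and `m' 1 ≤ b N b / 2`.
  So for each `b` and for ALL numbers `n` of points at the same time, Q1 for the curves with `C F = b`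
  is decided by finitely many classes.
* (3) Let `C` be an irreducible curve with `C ^ 2 < 0` through at least four points with algebraically
  independent coordinates, which is not a `(-1)`-curve, and `b = d - m q = C (H - E q)` for ANY of the
  points. Then `m i ≤ b` for `i ≠ q`, `3 (K C - C ^ 2 - 2) < 2 b (b + 1) ^ 2 (b + 2)`,
  `3 ∑_{i ≠ q} m i (b - m i) < 2 b (b (b + 1) ^ 2 (b + 2) + 3 (b + 1))`, and there is a class `D'` as in
  (2) with `D' ^ 2 = C ^ 2`, `K D' = K C`. In particular the genus and `K C` are bounded in terms of `b`,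
  whatever the degree and the number of the points are.

Idea: `Pool.Agent.H902.CB.far_plane` (used for `MP_70e04f_ag.UnionsOfPencils`): `h⁰ = max (0, χ)` if
`3 |χ| ≥ b (b + 1) ^ 2 (b + 2)`. With `D ^ 2 < 0` this bounds `∑ m i (b - m i)`, and pairs of points of
multiplicity `b` are removed by quadratic transformations.
-/

namespace Pool.Agent.Results.MP_d3e5c7_ag.FibreDegree

open MvPolynomial

/-- The homogeneous ideal of the point `(p 0 : p 1 : 1)`. -/
noncomputable def pt (p : Fin 2 → ℂ) : Ideal (MvPolynomial (Fin 3) ℂ) :=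
  Ideal.span {X 0 - C (p 0) * X 2, X 1 - C (p 1) * X 2}

/-- The property holds for all `n`-tuples of points outside some hypersurface. -/
def General {n : ℕ} (p : (Fin n → Fin 2 → ℂ) → Prop) : Prop :=
  ∃ F : MvPolynomial (Fin n × Fin 2) ℂ, F ≠ 0 ∧ ∀ P : Fin n → Fin 2 → ℂ,
    eval (fun q : Fin n × Fin 2 => P q.1 q.2) F ≠ 0 → p P

/-- At general points there is no curve of degree `d` with multiplicity at least `w i` at the `i`-th
point (reducible and nonreduced curves are excluded too). -/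
def NoCurve {n : ℕ} (d : ℕ) (w : Fin n → ℕ) : Prop :=
  General fun P : Fin n → Fin 2 → ℂ => ∀ G : MvPolynomial (Fin 3) ℂ, G.IsHomogeneous d →
    (∀ i, G ∈ pt (P i) ^ (w i)) → G = 0

/-- The self-intersection of the class `d H - ∑ w i E i`. -/
def self {n : ℕ} (d : ℕ) (w : Fin n → ℕ) : ℤ := (d : ℤ) ^ 2 - ∑ i, (w i : ℤ) ^ 2

/-- The intersection number with the canonical class. -/
def can {n : ℕ} (d : ℕ) (w : Fin n → ℕ) : ℤ := -3 * (d : ℤ) + ∑ i, (w i : ℤ)

/-- The Euler characteristic. -/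
def chi {n : ℕ} (d : ℕ) (w : Fin n → ℕ) : ℤ :=
  ((d + 2).choose 2 : ℤ) - ∑ i, ((w i + 1).choose 2 : ℤ)

/-- The threshold `b (b + 1) ^ 2 (b + 2)`. -/
def T (b : ℕ) : ℕ := b * (b + 1) ^ 2 * (b + 2)

/-- The bound for the number of points. -/
def N (b : ℕ) : ℕ := b * (T b + 3 * (b + 1))

/-- One quadratic (Cremona) transformation of classes: the reflection in the class
`H - E i - E j - E k`. -/
def Quadratic {n : ℕ} (a b : ℕ × (Fin n → ℕ)) : Prop :=
  ∃ i j k : Fin n, i ≠ j ∧ i ≠ k ∧ j ≠ k ∧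
    (b.1 : ℤ) = 2 * a.1 - a.2 i - a.2 j - a.2 k ∧
    (b.2 i : ℤ) = a.1 - a.2 j - a.2 k ∧
    (b.2 j : ℤ) = a.1 - a.2 i - a.2 k ∧
    (b.2 k : ℤ) = a.1 - a.2 i - a.2 j ∧
    ∀ l, l ≠ i → l ≠ j → l ≠ k → b.2 l = a.2 l

/-- Finitely many quadratic transformations carry the class `a` to `b`. -/
def Carries {n : ℕ} (a b : ℕ × (Fin n → ℕ)) : Prop := Relation.ReflTransGen Quadratic a b

open Pool.Agent.H902.CB

theorem mem_forms {n : ℕ} {P : Fin n → Fin 2 → ℂ} {w : Fin n → ℕ} {d : ℕ}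
    {G : MvPolynomial (Fin 3) ℂ} : G ∈ Pool.Agent.H248R5.forms w P d ↔
      G.IsHomogeneous d ∧ ∀ i, G ∈ pt (P i) ^ (w i) := by
  unfold Pool.Agent.H248R5.forms pt
  rw [Submodule.mem_inf, mem_homogeneousSubmodule, Submodule.restrictScalars_mem, Ideal.mem_iInf]

/-- emptiness and the expected dimension -/
theorem nc_iff {n d : ℕ} {w : Fin n → ℕ}
    (hχ : (d + 2).choose 2 ≤ ∑ i, (w i + 1).choose 2) : NoCurve d w ↔ EI w (PT d d d) := by
  rw [← gen_iff]
  unfold NoCurve General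
  constructor
  · rintro ⟨F, hF, h⟩
    refine ⟨F, hF, fun P hP => ?_⟩
    have h1 : Pool.Agent.H248R5.forms w P d = ⊥ := by
      rw [Submodule.eq_bot_iff]
      intro G hG
      obtain ⟨g1, g2⟩ := mem_forms.1 hG
      exact h P hP G g1 g2
    show Module.finrank ℂ ↥(Pool.Agent.H248R5.forms w P d) = _
    rw [h1, finrank_bot]
    omega
  · rintro ⟨F, hF, h⟩
    refine ⟨F, hF, fun P hP G g1 g2 => ?_⟩
    have h1 : Module.finrank ℂ ↥(Pool.Agent.H248R5.forms w P d) = 0 := by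
      have h2 : Module.finrank ℂ ↥(Pool.Agent.H248R5.forms w P d) =
        (d + 2).choose 2 - ∑ i, (w i + 1).choose 2 := h P hP
      omega
    have hfin : Module.Finite ℂ ↥(homogeneousSubmodule (Fin 3) ℂ d) :=
      Module.Finite.iff_fg.2 (homogeneousSubmodule_fg _ _ d)
    have hfin' : FiniteDimensional ℂ ↥(Pool.Agent.H248R5.forms w P d) :=
      Submodule.finiteDimensional_of_le (S₁ := Pool.Agent.H248R5.forms w P d)
        (S₂ := homogeneousSubmodule (Fin 3) ℂ d) inf_le_left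
    have h3 : Pool.Agent.H248R5.forms w P d = ⊥ := Submodule.finrank_eq_zero.1 h1
    have h4 : G ∈ Pool.Agent.H248R5.forms w P d := mem_forms.2 ⟨g1, g2⟩
    rw [h3, Submodule.mem_bot] at h4
    exact h4

theorem sums {n : ℕ} (w : Fin n → ℕ) :
    (∑ i, (w i : ℤ) ^ 2 = (sqM ((Finset.univ : Finset (Fin n)).val.map w) : ℤ)) ∧
    (∑ i, (w i : ℤ) = (((Finset.univ : Finset (Fin n)).val.map w).sum : ℤ)) := by
  constructor
  · unfold sqM
    rw [Multiset.map_map]
    show _ = ((∑ i, w i * w i : ℕ) : ℤ)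
    push_cast
    exact Finset.sum_congr rfl fun i _ => by ring
  · show _ = ((∑ i, w i : ℕ) : ℤ)
    push_cast
    rfl

/-- `χ ≤ 0` -/
theorem chi_le {n d : ℕ} {w : Fin n → ℕ} (h1 : self d w < 0) (h2 : 0 ≤ can d w) :
    (d + 2).choose 2 ≤ ∑ i, (w i + 1).choose 2 := by
  unfold self at h1
  unfold can at h2
  rw [(sums w).1] at h1
  rw [(sums w).2] at h2
  have h3 : (∑ i, (w i + 1).choose 2) = cM ((Finset.univ : Finset (Fin n)).val.map w) :=
    cond_cM rfl
  have h4 := two_cM ((Finset.univ : Finset (Fin n)).val.map w)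
  have t1 := two_chN (d + 1)
  rw [h3]
  rw [show d + 1 + 1 = d + 2 by ring] at t1
  generalize ((Finset.univ : Finset (Fin n)).val.map w).sum = S at h2 h4
  zify at h4 t1 ⊢
  nlinarith

theorem bad_iff {n b c : ℕ} {v : Fin n → ℕ} (hv : ∀ i, v i ≤ b)
    (h1 : self (c + b) (Fin.cons c v : Fin (n + 1) → ℕ) < 0)
    (h2 : 0 ≤ can (c + b) (Fin.cons c v : Fin (n + 1) → ℕ))
    (h3 : ¬ NoCurve (c + b) (Fin.cons c v : Fin (n + 1) → ℕ)) :
    Bad b c ((Finset.univ : Finset (Fin n)).val.map v) := by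
  refine ⟨fun x hx => ?_, ?_, ?_, fun h4 => h3 ?_⟩
  · rw [Multiset.mem_map] at hx
    obtain ⟨i, _, rfl⟩ := hx
    exact hv i
  · unfold self at h1
    rw [Fin.sum_univ_succ] at h1
    simp only [Fin.cons_zero, Fin.cons_succ] at h1
    rw [(sums v).1] at h1
    push_cast at h1
    zify
    nlinarith
  · unfold can at h2
    rw [Fin.sum_univ_succ] at h2
    simp only [Fin.cons_zero, Fin.cons_succ] at h2
    rw [(sums v).2] at h2
    push_cast at h2
    zify
    linarith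
  · rw [nc_iff (chi_le h1 h2), ← EIM_iff (vals_fcons c v)]
    exact h4

theorem small_of_bad {b c : ℕ} {s : Multiset ℕ} (h : Bad b c s) :
    ∃ (n' c' : ℕ) (v' : Fin n' → ℕ), n' ≤ N b ∧ 2 * c' ≤ b * N b ∧ (∀ i, v' i ≤ b) ∧
      self (c' + b) (Fin.cons c' v' : Fin (n' + 1) → ℕ) =
        2 * (b : ℤ) * (c : ℤ) + (b : ℤ) * (b : ℤ) - (sqM s : ℤ) ∧
      can (c' + b) (Fin.cons c' v' : Fin (n' + 1) → ℕ) = (s.sum : ℤ) - 2 * (c : ℤ) - 3 * (b : ℤ) ∧
      ¬ NoCurve (c' + b) (Fin.cons c' v' : Fin (n' + 1) → ℕ) := by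
  obtain ⟨c', s', a1, a2, a3, a4, a5⟩ := Bad.small _ c _ rfl h
  obtain ⟨v', hv'⟩ : ∃ v' : Fin s'.card → ℕ,
      (Finset.univ : Finset (Fin s'.card)).val.map v' = s' := by
    obtain ⟨n', w, hw⟩ := exists_vals s'
    have hn : n' = s'.card := by
      rw [← hw, Multiset.card_map, Finset.card_val, Finset.card_univ, Fintype.card_fin]
    subst hn
    exact ⟨w, hw⟩
  have hs : self (c' + b) (Fin.cons c' v' : Fin (s'.card + 1) → ℕ) =
      2 * (b : ℤ) * (c : ℤ) + (b : ℤ) * (b : ℤ) - (sqM s : ℤ) := by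
    unfold self
    rw [Fin.sum_univ_succ]
    simp only [Fin.cons_zero, Fin.cons_succ]
    rw [(sums v').1, hv']
    zify at a4
    push_cast
    nlinarith
  have hc : can (c' + b) (Fin.cons c' v' : Fin (s'.card + 1) → ℕ) =
      (s.sum : ℤ) - 2 * (c : ℤ) - 3 * (b : ℤ) := by
    unfold can
    rw [Fin.sum_univ_succ]
    simp only [Fin.cons_zero, Fin.cons_succ]
    rw [(sums v').2, hv']
    generalize s'.sum = A at a5 ⊢
    generalize s.sum = B at a5 ⊢
    zify at a5
    push_cast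
    linarith
  have h1 := h.neg
  have h2 := h.can
  zify at h1
  refine ⟨s'.card, c', v', a2, a3, fun i => ?_, hs, hc, fun h' => a1.eff ?_⟩
  · refine a1.le _ ?_
    rw [← hv']
    exact Multiset.mem_map_of_mem v' (Finset.mem_univ_val i)
  · have h4 := (nc_iff (chi_le (by rw [hs]; linarith) (by rw [hc]; omega))).1 h'
    have h5 := (EIM_iff (vals_fcons c' v')).2 h4
    rwa [hv'] at h5

/-- **part (2)** -/
theorem part_two {n b c : ℕ} {v : Fin n → ℕ} (hv : ∀ i, v i ≤ b)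
    (h1 : self (c + b) (Fin.cons c v : Fin (n + 1) → ℕ) < 0)
    (h2 : 0 ≤ can (c + b) (Fin.cons c v : Fin (n + 1) → ℕ))
    (h3 : ¬ NoCurve (c + b) (Fin.cons c v : Fin (n + 1) → ℕ)) :
    ∃ (n' c' : ℕ) (v' : Fin n' → ℕ), n' ≤ N b ∧ 2 * c' ≤ b * N b ∧ (∀ i, v' i ≤ b) ∧
      self (c' + b) (Fin.cons c' v' : Fin (n' + 1) → ℕ) =
        self (c + b) (Fin.cons c v : Fin (n + 1) → ℕ) ∧
      can (c' + b) (Fin.cons c' v' : Fin (n' + 1) → ℕ) =
        can (c + b) (Fin.cons c v : Fin (n + 1) → ℕ) ∧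
      ¬ NoCurve (c' + b) (Fin.cons c' v' : Fin (n' + 1) → ℕ) := by
  obtain ⟨n', c', v', a1, a2, a3, a4, a5, a6⟩ := small_of_bad (bad_iff hv h1 h2 h3)
  refine ⟨n', c', v', a1, a2, a3, a4.trans ?_, a5.trans ?_, a6⟩
  · unfold self
    rw [Fin.sum_univ_succ]
    simp only [Fin.cons_zero, Fin.cons_succ]
    rw [(sums v).1]
    push_cast
    ring
  · unfold can
    rw [Fin.sum_univ_succ]
    simp only [Fin.cons_zero, Fin.cons_succ]
    rw [(sums v).2]
    generalize (Multiset.map v (Finset.univ : Finset (Fin n)).val).sum = A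
    push_cast
    ring

/-- **part (3)** -/
theorem part_three {r : ℕ} {P : Fin (r + 4) → Fin 2 → ℂ}
    (hP : AlgebraicIndependent ℚ (fun ij : Fin (r + 4) × Fin 2 => P ij.1 ij.2))
    {d : ℕ} {w : Fin (r + 4) → ℕ} {C : MvPolynomial (Fin 3) ℂ}
    (hC : Pool.Agent.TH167.SHDefs.Curve P C d w)
    (hneg : Pool.Agent.TH167.SHDefs.inter d w d w < 0)
    (hne : ¬ Pool.Agent.TH167.SHDefs.MinusOne P C d w) (q : Fin (r + 4)) :
    ∃ (n' c' : ℕ) (v' : Fin n' → ℕ), n' ≤ N (d - w q) ∧ 2 * c' ≤ (d - w q) * N (d - w q) ∧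
      (∀ i, v' i ≤ d - w q) ∧
      self (c' + (d - w q)) (Fin.cons c' v' : Fin (n' + 1) → ℕ) =
        Pool.Agent.TH167.SHDefs.inter d w d w ∧
      can (c' + (d - w q)) (Fin.cons c' v' : Fin (n' + 1) → ℕ) =
        Pool.Agent.TH167.SHDefs.interK d w ∧
      ¬ NoCurve (c' + (d - w q)) (Fin.cons c' v' : Fin (n' + 1) → ℕ) := by
  obtain ⟨h1, -, h3⟩ := bad_of_curve hP hC hneg hne q
  obtain ⟨e1, e2⟩ := class_of_curve q h1
  obtain ⟨n', c', v', a1, a2, a3, a4, a5, a6⟩ := small_of_bad h3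
  exact ⟨n', c', v', a1, a2, a3, a4.trans e1.symm, a5.trans e2.symm, a6⟩

/-- **part (1)** -/
theorem part_one {n b c : ℕ} {v : Fin n → ℕ} (hv : ∀ i, v i ≤ b)
    (h1 : self (c + b) (Fin.cons c v : Fin (n + 1) → ℕ) < 0)
    (h2 : 0 ≤ can (c + b) (Fin.cons c v : Fin (n + 1) → ℕ))
    (h3 : (T b : ℤ) ≤ -3 * chi (c + b) (Fin.cons c v : Fin (n + 1) → ℕ) ∨
      2 * b * (T b + 3 * (b + 1)) ≤ 3 * ∑ i, v i * (b - v i))
    {e : ℕ} {u : Fin (n + 1) → ℕ} (hc : Carries (c + b, Fin.cons c v) (e, u)) :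
    NoCurve e u := by
  have hχ := chi_le h1 h2
  have h4 : EI (Fin.cons c v : Fin (n + 1) → ℕ) (PT (c + b) (c + b) (c + b)) := by
    by_contra hcon
    have hB := bad_iff hv h1 h2 fun h => hcon ((nc_iff hχ).1 h)
    rcases h3 with h3 | h3
    · have h5 := hB.chi_lt
      have h6 : (∑ i, ((Fin.cons c v : Fin (n + 1) → ℕ) i + 1).choose 2) =
          (c + 1).choose 2 + cM ((Finset.univ : Finset (Fin n)).val.map v) := by
        rw [← cM_cons, ← vals_fcons c v]
        exact cond_cM rfl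
      have h7 : (∑ i, (((Fin.cons c v : Fin (n + 1) → ℕ) i + 1).choose 2 : ℤ)) =
          (((∑ i, ((Fin.cons c v : Fin (n + 1) → ℕ) i + 1).choose 2) : ℕ) : ℤ) := by
        push_cast
        rfl
      unfold chi at h3
      rw [h7, h6] at h3
      have h8 : T b = T3 b := rfl
      rw [h8] at h3
      omega
    · have h5 := hB.de_lt
      have h6 : deM b ((Finset.univ : Finset (Fin n)).val.map v) = ∑ i, v i * (b - v i) := by
        unfold deM
        rw [Multiset.map_map]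
        rfl
      rw [h6] at h5
      have h8 : T b = T3 b := rfl
      rw [h8] at h3
      omega
  have h5 := EI_carries (a := (c + b, (Fin.cons c v : Fin (n + 1) → ℕ))) (b := (e, u)) hc h4
  refine (nc_iff ?_).2 h5
  have h6 := chi_chain (a := (c + b, (Fin.cons c v : Fin (n + 1) → ℕ))) (b := (e, u)) hc
  unfold Pool.Agent.TH167.SH.chi at h6
  dsimp only at h6
  have e2 : ((∑ i, (u i + 1).choose 2 : ℕ) : ℤ) = ∑ j, ((u j + 1).choose 2 : ℤ) := by
    push_cast
    rfl
  have e3 : ((∑ i, ((Fin.cons c v : Fin (n + 1) → ℕ) i + 1).choose 2 : ℕ) : ℤ) =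
      ∑ j, (((Fin.cons c v : Fin (n + 1) → ℕ) j + 1).choose 2 : ℤ) := by
    push_cast
    rfl
  rw [← e2, ← e3] at h6
  omega

theorem result :
    -- (1) no curves with large `-χ` or large `∑ m i (b - m i)`, and their images
    (∀ (n b c : ℕ) (v : Fin n → ℕ), (∀ i, v i ≤ b) →
      self (c + b) (Fin.cons c v : Fin (n + 1) → ℕ) < 0 →
      0 ≤ can (c + b) (Fin.cons c v : Fin (n + 1) → ℕ) →
      ((T b : ℤ) ≤ -3 * chi (c + b) (Fin.cons c v : Fin (n + 1) → ℕ) ∨
        2 * b * (T b + 3 * (b + 1)) ≤ 3 * ∑ i, v i * (b - v i)) →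
      ∀ (e : ℕ) (u : Fin (n + 1) → ℕ), Carries (c + b, Fin.cons c v) (e, u) → NoCurve e u) ∧
    -- (2) for each `b` finitely many classes suffice, for all numbers of points
    (∀ (n b c : ℕ) (v : Fin n → ℕ), (∀ i, v i ≤ b) →
      self (c + b) (Fin.cons c v : Fin (n + 1) → ℕ) < 0 →
      0 ≤ can (c + b) (Fin.cons c v : Fin (n + 1) → ℕ) →
      ¬ NoCurve (c + b) (Fin.cons c v : Fin (n + 1) → ℕ) →
      ∃ (n' c' : ℕ) (v' : Fin n' → ℕ), n' ≤ N b ∧ 2 * c' ≤ b * N b ∧ (∀ i, v' i ≤ b) ∧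
        self (c' + b) (Fin.cons c' v' : Fin (n' + 1) → ℕ) =
          self (c + b) (Fin.cons c v : Fin (n + 1) → ℕ) ∧
        can (c' + b) (Fin.cons c' v' : Fin (n' + 1) → ℕ) =
          can (c + b) (Fin.cons c v : Fin (n + 1) → ℕ) ∧
        ¬ NoCurve (c' + b) (Fin.cons c' v' : Fin (n' + 1) → ℕ)) ∧
    -- (3) irreducible curves at very general points: for each of the points
    (∀ (r : ℕ) (P : Fin (r + 4) → Fin 2 → ℂ),
      AlgebraicIndependent ℚ (fun ij : Fin (r + 4) × Fin 2 => P ij.1 ij.2) →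
      ∀ (d : ℕ) (w : Fin (r + 4) → ℕ) (C : MvPolynomial (Fin 3) ℂ),
        Pool.Agent.TH167.SHDefs.Curve P C d w → Pool.Agent.TH167.SHDefs.inter d w d w < 0 →
        ¬ Pool.Agent.TH167.SHDefs.MinusOne P C d w → ∀ q : Fin (r + 4),
        (w q ≤ d ∧ (∀ i, i ≠ q → w q + w i ≤ d) ∧
          3 * (Pool.Agent.TH167.SHDefs.interK d w - Pool.Agent.TH167.SHDefs.inter d w d w - 2) <
            2 * (T (d - w q) : ℤ) ∧
          3 * ∑ i ∈ Finset.univ.erase q, w i * (d - w q - w i) <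
            2 * (d - w q) * (T (d - w q) + 3 * (d - w q + 1))) ∧
        ∃ (n' c' : ℕ) (v' : Fin n' → ℕ), n' ≤ N (d - w q) ∧ 2 * c' ≤ (d - w q) * N (d - w q) ∧
          (∀ i, v' i ≤ d - w q) ∧
          self (c' + (d - w q)) (Fin.cons c' v' : Fin (n' + 1) → ℕ) =
            Pool.Agent.TH167.SHDefs.inter d w d w ∧
          can (c' + (d - w q)) (Fin.cons c' v' : Fin (n' + 1) → ℕ) =
            Pool.Agent.TH167.SHDefs.interK d w ∧
          ¬ NoCurve (c' + (d - w q)) (Fin.cons c' v' : Fin (n' + 1) → ℕ)) :=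
  ⟨fun _ _ _ _ hv h1 h2 h3 _ _ hc => part_one hv h1 h2 h3 hc,
    fun _ _ _ _ hv h1 h2 h3 => part_two hv h1 h2 h3,
    fun _ _ hP _ _ _ hC hneg hne q => ⟨neg_ineq hP hC hneg hne q, part_three hP hC hneg hne q⟩⟩

end Pool.Agent.Results.MP_d3e5c7_ag.FibreDegree
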