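import Mathlib
import Pool.Agent.H879.Neg.Tenth

set_option autoImplicit false

/-!
# Negative curves are controlled by their tenth largest multiplicity

Let `P 1, …, P s`, `s ≥ 4`, be very general points of the complex projective plane and let `C` be an
irreducible curve with `C ^ 2 < 0`, of class `d H - ∑ w i E i`, which is not a `(-1)`-curve. There are
no such curves for `s ≤ 9` points. Here the NINE largest multiplicities are arbitrary, and all is
bounded by the tenth one: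

(1) If at most nine of the multiplicities `w i` are larger than `b`, then
`K C - C ^ 2 < 10 ^ 39 (b + 1) ^ 16`; so the arithmetic genus, `K C` and `- C ^ 2` are bounded in terms of
the tenth largest multiplicity alone, whatever the degree and the number of the points are.

(2) Quadratic transformations carry the class of `C` to the class `(d1; w1)`, `d1 ≤ d`, `w1 ≤ w`, of an
irreducible curve through other very general points, with the same `C ^ 2` and `K C > 0`, which is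
standard (`w1 i + w1 j + w1 l ≤ d1`), and for every `b` such that at most nine of the `w1 i` are larger
than `b`: `d1 < 10 ^ 31 (b + 1) ^ 14`; the nine large multiplicities nearly exhaust the degree,
`d1 ^ 2 - ∑_I (w1 i) ^ 2 < 6 * 10 ^ 7 (b + 1) ^ 2 (d1 + b + 2)`; and the degree and the positive
multiplicities `w1 i` belong to a finite set `S b` which does not depend on the number of the points.

(3) `(d1; w1)` has no `Margin`: for every `μ` (a scale) and every `T ≥ 2 ^ 43 (μ + 1) ^ 11` with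
`2 ^ 14 (μ + 1) ^ 3 ∑ v i ≤ T D`, `D = d1 - T`, where `v` is the vector of the multiplicities larger
than `μ`, the class `(D; v)` is not standard, or its self-intersection `q` is negative or so small that
for every set `S` of at most nine indices some `v i`, `i ∉ S`, has `(v i) ^ 2 > 7 q` (more precisely: it
violates `Tail`). So at every scale `μ` the multiplicities larger than `μ` alone fill the volume
`d1 ^ 2`, up to the bounded change `T` of the degree and a seventh of the square of the tenth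
multiplicity.
-/

namespace Pool.Agent.Results.MP_d3e5c7_ag.TenthMultiplicity

open MvPolynomial Pool.Agent.TH167.SHDefs

/-- The degree is at least the sum of any three multiplicities. -/
def Standard {n : ℕ} (d : ℕ) (w : Fin n → ℕ) : Prop :=
  ∀ i j l : Fin n, i ≠ j → i ≠ l → j ≠ l → w i + w j + w l ≤ d

/-- At most nine of the multiplicities are larger than `b`. -/
def NineAbove {n : ℕ} (b : ℕ) (w : Fin n → ℕ) : Prop :=
  (Finset.univ.filter fun i => b < w i).card ≤ 9

/-- The degree and the multiset of the positive multiplicities. -/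
def type {n : ℕ} (d : ℕ) (w : Fin n → ℕ) : ℕ × Multiset ℕ :=
  (d, (Finset.univ.val.map w).filter (fun x => x ≠ 0))

/-- The multiplicities larger than `μ` (the others are replaced by zero). -/
def large {n : ℕ} (w : Fin n → ℕ) (μ : ℕ) : Fin n → ℕ := fun i => if μ < w i then w i else 0

/-- The self-intersection of the class `D H - ∑ v i E i`. -/
def self {n : ℕ} (D : ℕ) (v : Fin n → ℕ) : ℝ := (D : ℝ) ^ 2 - ∑ i, (v i : ℝ) ^ 2

/-- The sum of the squares of the `v j < v i` with `j ∉ S`. -/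
noncomputable def below {n : ℕ} (S : Finset (Fin n)) (v : Fin n → ℕ) (i : Fin n) : ℝ :=
  ∑ j, if j ∉ S ∧ v j < v i then (v j : ℝ) ^ 2 else 0

/-- The sum of the squares of the `v j ≥ v i` with `j ∉ S`. -/
noncomputable def atLeast {n : ℕ} (S : Finset (Fin n)) (v : Fin n → ℕ) (i : Fin n) : ℝ :=
  ∑ j, if j ∉ S ∧ v i ≤ v j then (v j : ℝ) ^ 2 else 0

/-- The condition on the multiplicities `v i` outside of a set `S` of at most nine indices. -/
def Tail {n : ℕ} (S : Finset (Fin n)) (D : ℕ) (v : Fin n → ℕ) : Prop :=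
  S.card ≤ 9 ∧ ∀ i, i ∉ S → (v i : ℝ) ^ 2 ≤ 7 * self D v ∨
    (v i : ℝ) ^ 2 ≤ 4 * (self D v + below S v i) ∨
    (S.card = 9 ∧ 2 * (v i : ℝ) * atLeast S v i ≤ D * (self D v + below S v i))

/-- The multiplicities larger than `μ` leave a margin `T`. -/
def Margin {n : ℕ} (d : ℕ) (w : Fin n → ℕ) : Prop :=
  ∃ (μ T D : ℕ) (S : Finset (Fin n)), d = D + T ∧ 2 ^ 43 * (μ + 1) ^ 11 ≤ T ∧
    2 ^ 14 * (μ + 1) ^ 3 * ∑ i, large w μ i ≤ T * D ∧
    Standard D (large w μ) ∧ ∑ i, large w μ i ^ 2 ≤ D ^ 2 ∧ Tail S D (large w μ)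

theorem tail_iff {n : ℕ} {S : Finset (Fin n)} {D : ℕ} {v : Fin n → ℕ} (h : Tail S D v) :
    H879.RV.Tail S (D : ℝ) (fun i => (v i : ℝ)) := by
  refine ⟨h.1, fun i hi => ?_⟩
  have e1 : below S v i = Pool.Agent.K4H28.TC.below S (fun i => (v i : ℝ)) i := by
    unfold below Pool.Agent.K4H28.TC.below
    refine Finset.sum_congr rfl fun j _ => ?_
    by_cases hj : j ∉ S ∧ v j < v i
    · have h2 : (v j : ℝ) < v i := by exact_mod_cast hj.2
      rw [if_pos hj, if_pos ⟨hj.1, h2⟩]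
    · have h2 : ¬ (j ∉ S ∧ (v j : ℝ) < v i) := fun h' => hj ⟨h'.1, by
        have h3 := h'.2
        exact_mod_cast h3⟩
      rw [if_neg hj, if_neg h2]
  have e2 : atLeast S v i = Pool.Agent.K4H28.TC.above S (fun i => (v i : ℝ)) i := by
    unfold atLeast Pool.Agent.K4H28.TC.above
    refine Finset.sum_congr rfl fun j _ => ?_
    by_cases hj : j ∉ S ∧ v i ≤ v j
    · have h2 : (v i : ℝ) ≤ v j := by exact_mod_cast hj.2
      rw [if_pos hj, if_pos ⟨hj.1, h2⟩]
    · have h2 : ¬ (j ∉ S ∧ (v i : ℝ) ≤ v j) := fun h' => hj ⟨h'.1, by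
        have h3 := h'.2
        exact_mod_cast h3⟩
      rw [if_neg hj, if_neg h2]
  have h1 := h.2 i hi
  rw [e1, e2] at h1
  exact h1

theorem margin_iff {n d : ℕ} {w : Fin n → ℕ} (h : Margin d w) : H879.RV.Margin d w := by
  obtain ⟨μ, T, D, S, hd, hT1, hT2, hstd, hD0, hS⟩ := h
  have e43 : (2 : ℕ) ^ 43 = 8796093022208 := by norm_num
  have e14 : (2 : ℕ) ^ 14 = 16384 := by norm_num
  rw [e43] at hT1
  rw [e14] at hT2
  exact ⟨μ, T, D, S, hd, hT1, hT2, hstd, hD0, tail_iff hS⟩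

/-- The numerical estimate. -/
theorem numeric {V x : ℤ} {d b : ℕ} (h1 : d < 10000000000000000000000000000000 * (b + 1) ^ 14)
    (h2 : V < 60000000 * (((b : ℤ) + 1) ^ 2 * (d + b + 2))) (h3 : x ≤ V + 2 * b) :
    x < 10 ^ 39 * ((b : ℤ) + 1) ^ 16 := by
  obtain ⟨y, hy⟩ : ∃ y : ℤ, y = (b : ℤ) + 1 := ⟨_, rfl⟩
  have hb : (b : ℤ) = y - 1 := by omega
  have hy1 : 1 ≤ y := by omega
  have h1' : (d : ℤ) < 10000000000000000000000000000000 * y ^ 14 := by
    rw [hy]
    exact_mod_cast h1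
  have y2 : 1 ≤ y ^ 2 := one_le_pow₀ hy1
  have y14 : 1 ≤ y ^ 14 := one_le_pow₀ hy1
  have p1 : y ≤ y ^ 14 := le_self_pow₀ hy1 (by norm_num)
  have h4 : (d : ℤ) + b + 2 ≤ 10000000000000000000000000000003 * y ^ 14 := by
    rw [hb]
    linarith
  have h5 : y ^ 2 * ((d : ℤ) + b + 2) ≤ y ^ 2 * (10000000000000000000000000000003 * y ^ 14) :=
    mul_le_mul_of_nonneg_left h4 (by linarith)
  have e1 : y ^ 2 * (10000000000000000000000000000003 * y ^ 14) =
      10000000000000000000000000000003 * y ^ 16 := by ring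
  have p16 : y ≤ y ^ 16 := le_self_pow₀ hy1 (by norm_num)
  have p16' : 1 ≤ y ^ 16 := one_le_pow₀ hy1
  rw [← hy] at h2 ⊢
  rw [hb] at h3
  rw [e1] at h5
  norm_num
  linarith

/-- Negative curves are controlled by their tenth multiplicity. -/
theorem result : ∃ S : ℕ → Finset (ℕ × Multiset ℕ), ∀ s : ℕ, 4 ≤ s →
    ∃ Z : ℕ → MvPolynomial (Fin s × Fin 2) ℂ, (∀ n, Z n ≠ 0) ∧
    ∀ P : Fin s → Fin 2 → ℂ,
      (∀ n, MvPolynomial.eval (fun ij : Fin s × Fin 2 => P ij.1 ij.2) (Z n) ≠ 0) →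
      ∀ (d : ℕ) (w : Fin s → ℕ) (C : MvPolynomial (Fin 3) ℂ),
        Curve P C d w → inter d w d w < 0 → ¬ MinusOne P C d w →
        (∀ b : ℕ, NineAbove b w → interK d w - inter d w d w < 10 ^ 39 * ((b : ℤ) + 1) ^ 16) ∧
        ∃ (P1 : Fin s → Fin 2 → ℂ) (d1 : ℕ) (w1 : Fin s → ℕ) (C1 : MvPolynomial (Fin 3) ℂ),
          (∀ n, MvPolynomial.eval (fun ij : Fin s × Fin 2 => P1 ij.1 ij.2) (Z n) ≠ 0) ∧
          Curve P1 C1 d1 w1 ∧ Relation.ReflTransGen Quadratic (d, w) (d1, w1) ∧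
          Standard d1 w1 ∧ d1 ≤ d ∧ (∀ i, w1 i ≤ w i) ∧
          inter d1 w1 d1 w1 = inter d w d w ∧ interK d1 w1 = interK d w ∧ 0 < interK d1 w1 ∧
          (∀ b : ℕ, NineAbove b w1 → d1 < 10 ^ 31 * (b + 1) ^ 14 ∧ type d1 w1 ∈ S b ∧
            ∀ I : Finset (Fin s), I.card ≤ 9 → (∀ i, i ∉ I → w1 i ≤ b) →
              (d1 : ℤ) ^ 2 - ∑ i ∈ I, (w1 i : ℤ) ^ 2 <
                6 * 10 ^ 7 * ((b : ℤ) + 1) ^ 2 * (d1 + b + 2)) ∧
          ¬ Margin d1 w1 := by
  refine ⟨fun b => (H879.Star.finite_rem b).toFinset, fun s hs => ?_⟩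
  obtain ⟨r, rfl⟩ : ∃ r, s = r + 4 := ⟨s - 4, by omega⟩
  obtain ⟨Z, hZ, h⟩ := Pool.Agent.TH167.SH.exists_fam (Fin (r + 4) × Fin 2)
  refine ⟨Z, hZ, fun P hP0 d w C hC hneg hne => ?_⟩
  obtain ⟨P1, d1, w1, C1, hst⟩ := Pool.Agent.X213.NegStd.neg_std ((h _).1 hP0) hC hneg hne
  have hG : ¬ Pool.Agent.Q310.FP.GE d1 w1 := fun hG => hst.spec (hG ℂ P1 hst.alg)
  have hstd : Pool.Agent.Q310.FP.Standard d1 w1 := hst.std
  obtain ⟨c1, c2, c3⟩ := Pool.Agent.TH167.SH.curve_iff.1 hst.curve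
  have hX : ∀ j, 1 ≤ w1 j → ∑ i, w1 i ^ 2 ≤ d1 ^ 2 + w1 j := fun j hj =>
    H879.Pos.self_int hst.alg c1 c2 c3 hj
  have key : ∀ (b : ℕ) (I : Finset (Fin (r + 4))), I.card ≤ 9 → (∀ i, i ∉ I → w1 i ≤ b) →
      _ := fun b I hI hb => H879.Neg.bounds hs hstd hI hb hG hX hst.neg
  have hset : ∀ (b : ℕ) (i : Fin (r + 4)), i ∉ (Finset.univ.filter fun i => b < w1 i) →
      w1 i ≤ b := by
    intro b i hi
    rw [Finset.mem_filter, not_and] at hi
    have := hi (Finset.mem_univ i)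
    omega
  refine ⟨fun b hb => ?_, P1, d1, w1, C1, (h _).2 hst.alg, hst.curve, hst.chain, hst.std, hst.deg,
    hst.mult, hst.self, hst.can, hst.canPos, fun b hb => ⟨?_, ?_, fun I hI hIb => ?_⟩,
    fun hM => hG (H879.RV.ge_margin hs (margin_iff hM))⟩
  · have h9 : (Finset.univ.filter fun i => b < w1 i).card ≤ 9 := by
      refine le_trans (Finset.card_le_card fun i hi => ?_) hb
      rw [Finset.mem_filter] at hi ⊢
      exact ⟨hi.1, hi.2.trans_le (hst.mult i)⟩
    obtain ⟨k1, k2, k3⟩ := key b _ h9 (hset b)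
    rw [← hst.self, ← hst.can]
    exact numeric k1 k2 k3
  · have k1 := (key b _ hb (hset b)).1
    calc d1 < _ := k1
      _ = 10 ^ 31 * (b + 1) ^ 14 := by norm_num
  · rw [Set.Finite.mem_toFinset]
    exact ⟨r + 4, w1, hs, rfl, hstd, hb, hG⟩
  · have k2 := (key b I hI hIb).2.1
    calc _ < _ := k2
      _ = 6 * 10 ^ 7 * ((b : ℤ) + 1) ^ 2 * (d1 + b + 2) := by ring

end Pool.Agent.Results.MP_d3e5c7_ag.TenthMultiplicity
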